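import Mathlib
import Pool.Agent.Helper947.Am.Defs
import Pool.Agent.Helper947.Am.Cls
import Pool.Agent.Helper947.Am.Final

namespace Pool.Agent.Results.MP_45a605_ag.TorusClassesIndependent

open Pool.Agent.Helper947.Am

/-- For every `d ≥ 1` and every nonzero Laurent polynomial `f` in `d` variables, the classes of
the tori `Log⁻¹(ρ_ω)`, one for each connected component `ω` of the complement of the amoeba of
`f` (with an arbitrary base point `ρ_ω ∈ ω`), are linearly independent in the singular homology
`H_d(M_f; ℤ)` of the complement `M_f` of the hypersurface `f = 0` in `(ℂ^×)^d`. -/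
theorem result (d : ℕ) (hd : 1 ≤ d) (f : (Fin d → ℤ) →₀ ℂ) (_hf : f ≠ 0)
    (ρ : ConnectedComponents (Compl f) → Compl f)
    (hρ : ∀ ω, (ConnectedComponents.mk (ρ ω) : ConnectedComponents (Compl f)) = ω) :
    LinearIndependent ℤ (fun ω : ConnectedComponents (Compl f) => torusClass f (ρ ω)) := by
  classical
  obtain ⟨m, rfl⟩ : ∃ m, d = m + 1 := ⟨d - 1, by omega⟩
  rw [linearIndependent_iff']
  intro s g hg ω hω
  -- the relation says that an integer combination of torus chains bounds
  have h1 : (QuotientAddGroup.mk' ((bdry (M f) (m + 1)).range.addSubgroupOf (cycles (M f) (m + 1))))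
      (∑ i ∈ s, g i • torusCycle f (ρ i)) = 0 := by
    rw [map_sum]
    refine Eq.trans ?_ hg
    refine Finset.sum_congr rfl fun i _ => ?_
    rw [map_zsmul]
    rfl
  rw [QuotientAddGroup.mk'_apply, QuotientAddGroup.eq_zero_iff, AddSubgroup.mem_addSubgroupOf,
    AddMonoidHom.mem_range] at h1
  obtain ⟨B, hB⟩ := h1
  have h2 : ((cycles (M f) (m + 1)).subtype (∑ i ∈ s, g i • torusCycle f (ρ i))) =
      ∑ i : {i // i ∈ s}, g i.1 • torusChain f (ρ i.1) := by
    rw [map_sum, ← Finset.sum_coe_sort]
    refine Finset.sum_congr rfl fun i _ => ?_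
    rw [map_zsmul]
    rfl
  have h3 := independence f (fun i : {i // i ∈ s} => ρ i.1)
    (fun v w hvw h => hvw (Subtype.ext (by rw [← hρ v.1, ← hρ w.1]; exact h)))
    (fun i => g i.1) B (hB.trans h2) ⟨ω, hω⟩
  exact h3

end Pool.Agent.Results.MP_45a605_ag.TorusClassesIndependent
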